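import Pool.Agent.Run7.h870.BS.Tw

/-!
# MP_d06d57_nt: for every large `n`, primes `p` in `(n, 2n)` with `n ^ 2 - n - p` and `n ^ 2 + n + p`
almost primes

The problem asks whether for every `n > 4517` there is a prime `p` with `n < p < 2 * n` such that
`n ^ 2 - n - p` and `n ^ 2 + n + p` are both prime. Here: for every large `n` there are at least
`c * n / log ^ 3 n` primes `p` in `(n, 2 * n)` for which both numbers have all their prime factors
at least `n ^ δ`, hence at most `R` prime factors.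
-/

set_option autoImplicit false

open Finset

namespace Pool.Agent.Results.MP_d06d57_nt.EveryIntegerAlmostPrimes

/-- the primes `p` in `(n, 2 * n)` such that `n ^ 2 - n - p` and `n ^ 2 + n + p` have at most `R`
prime factors, counted with multiplicity, all of them at least `z` -/
def good (n R : ℕ) (z : ℝ) : Set ℕ :=
  {p | p.Prime ∧ n < p ∧ p < 2 * n ∧
    (∀ l : ℕ, l.Prime → l ∣ n ^ 2 - n - p ∨ l ∣ n ^ 2 + n + p → z ≤ l) ∧
    ArithmeticFunction.cardFactors (n ^ 2 - n - p) ≤ R ∧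
    ArithmeticFunction.cardFactors (n ^ 2 + n + p) ≤ R}

/-- There are `δ, c > 0`, `R` and `n₀` such that for every `n ≥ n₀` there are at least
`c * n / (log n) ^ 3` primes `p` with `n < p < 2 * n` for which `n ^ 2 - n - p` and `n ^ 2 + n + p`
have at most `R` prime factors, all at least `n ^ δ`. -/
theorem result : ∃ (δ c : ℝ) (R : ℕ), 0 < δ ∧ 0 < c ∧ ∃ n₀ : ℕ, ∀ n : ℕ, n₀ ≤ n →
    c * (n / Real.log n ^ 3) ≤ ((good n R ((n : ℝ) ^ δ)).ncard : ℝ) := by
  obtain ⟨δ, c, R, hδ, hc, n₀, hn₀, h⟩ := Run7.h870.BS.wrap 1 one_pos le_rfl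
    (fun n => (n : ℤ) ^ 2 - n) (fun n => (n : ℤ) ^ 2 + n) (fun _ => -1) (fun _ => 1)
    (fun n p => n ^ 2 - n - p) (fun n p => n ^ 2 + n + p) (by
      intro n p hn h1 h2
      rw [one_mul] at h1 h2
      have h1 : n < p := by exact_mod_cast h1
      have h2 : p < 2 * n := by exact_mod_cast h2
      have h4 : n ^ 2 * 4 ≤ n ^ 4 := by
        have : 4 ≤ n ^ 2 := by nlinarith
        calc n ^ 2 * 4 ≤ n ^ 2 * n ^ 2 := Nat.mul_le_mul_left _ this
          _ = n ^ 4 := by ring
      have h3 : 4 * n ≤ n ^ 2 := by nlinarith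
      refine ⟨?_, by omega, by omega⟩
      rw [Nat.cast_sub (by omega), Nat.cast_sub (by omega)]
      push_cast
      ring) (by
      intro n p hn h1 h2
      rw [one_mul] at h1 h2
      have h1 : n < p := by exact_mod_cast h1
      have h2 : p < 2 * n := by exact_mod_cast h2
      have h3 : n ≤ n ^ 2 := by nlinarith
      refine ⟨?_, by omega, ?_⟩
      · push_cast
        ring
      · have h4 : n ^ 2 * 4 ≤ n ^ 4 := by
          have : 4 ≤ n ^ 2 := by nlinarith
          calc n ^ 2 * 4 ≤ n ^ 2 * n ^ 2 := Nat.mul_le_mul_left _ this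
            _ = n ^ 4 := by ring
        omega) (by
      intro n l hl h3
      have h1 : ¬ (l : ℤ) ∣ 1 := by
        intro h
        have := Int.le_of_dvd (by norm_num) h
        omega
      exact ⟨fun h => h1 ((dvd_neg).1 h), h1⟩) (by
      intro n
      refine ⟨1, by norm_num, ?_, ?_⟩
      · have h1 : Even ((n : ℤ) * ((n : ℤ) - 1)) := Int.even_mul_pred_self n
        obtain ⟨k, hk⟩ := h1
        have h2 : (n : ℤ) ^ 2 - n + -1 * ((1 : ℕ) : ℤ) = k + k - 1 := by
          rw [← hk]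
          push_cast
          ring
        rw [h2]
        omega
      · have h1 : Even ((n : ℤ) * ((n : ℤ) + 1)) := Int.even_mul_succ_self n
        obtain ⟨k, hk⟩ := h1
        have h2 : (n : ℤ) ^ 2 + n + 1 * ((1 : ℕ) : ℤ) = k + k + 1 := by
          rw [← hk]
          push_cast
          ring
        rw [h2]
        omega) (by
      intro n
      obtain ⟨k, hk⟩ : ∃ k : ℤ, (n : ℤ) = 3 * k ∨ (n : ℤ) = 3 * k + 1 ∨ (n : ℤ) = 3 * k + 2 := ⟨(n : ℤ) / 3, by omega⟩
      rcases hk with hk | hk | hk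
      · refine ⟨1, by norm_num, ?_, ?_⟩
        · rw [hk, show (3 * k) ^ 2 - 3 * k + -1 * ((1 : ℕ) : ℤ) = 3 * (3 * k ^ 2 - k) - 1 by push_cast; ring]
          omega
        · rw [hk, show (3 * k) ^ 2 + 3 * k + 1 * ((1 : ℕ) : ℤ) = 3 * (3 * k ^ 2 + k) + 1 by push_cast; ring]
          omega
      · refine ⟨2, by norm_num, ?_, ?_⟩
        · rw [hk, show (3 * k + 1) ^ 2 - (3 * k + 1) + -1 * ((2 : ℕ) : ℤ) = 3 * (3 * k ^ 2 + k - 1) + 1 by push_cast; ring]
          omega
        · rw [hk, show (3 * k + 1) ^ 2 + (3 * k + 1) + 1 * ((2 : ℕ) : ℤ) = 3 * (3 * k ^ 2 + 3 * k + 1) + 1 by push_cast; ring]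
          omega
      · refine ⟨1, by norm_num, ?_, ?_⟩
        · rw [hk, show (3 * k + 2) ^ 2 - (3 * k + 2) + -1 * ((1 : ℕ) : ℤ) = 3 * (3 * k ^ 2 + 3 * k) + 1 by push_cast; ring]
          omega
        · rw [hk, show (3 * k + 2) ^ 2 + (3 * k + 2) + 1 * ((1 : ℕ) : ℤ) = 3 * (3 * k ^ 2 + 5 * k + 2) + 1 by push_cast; ring]
          omega)
  refine ⟨δ, c, R, hδ, hc, n₀, fun n hn => ?_⟩
  obtain ⟨T, hT, hTp⟩ := h n hn
  refine hT.trans ?_
  rw [Nat.cast_le, ← Set.ncard_coe_finset]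
  apply Set.ncard_le_ncard
  · intro p hp
    obtain ⟨h1, h2, h3, h4⟩ := hTp p hp
    rw [one_mul] at h2 h3
    exact ⟨h1, by exact_mod_cast h2, by exact_mod_cast h3, h4⟩
  · apply Set.Finite.subset (Finset.finite_toSet (range (2 * n)))
    intro p hp
    rw [mem_coe, mem_range]
    exact hp.2.2.1

end Pool.Agent.Results.MP_d06d57_nt.EveryIntegerAlmostPrimes
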